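import Pool.Agent.Helper77.RL.Goals2
import Pool.Agent.Helper40.RD.TRF
import Pool.Agent.Helper13.RD.ORB

/-!
# Project RL (MP_fc6b1e_nt), packet EUN: the primes of `M'` are unramified over `M`
-/

namespace Pool.Agent.Helper74.RL

open NumberField Polynomial Module IsDedekindDomain
open Pool.Agent.Helper51.RP Pool.Agent.Helper42.RD Pool.Agent.Helper77.RL
open Pool.Agent.Helper40.RS (bel efg)
open Pool.Agent.Helper40.RD (ordW bel_of_above)

/-- The ramification index divides the degree. -/
theorem ram_dvd {M M₁ : Type} [Field M] [NumberField M] [Field M₁] [NumberField M₁]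
    [Algebra M M₁] [IsGalois M M₁] (W : HeightOneSpectrum (𝓞 M₁)) :
    (bel M W).asIdeal.ramificationIdx' W.asIdeal ∣ finrank M M₁ := by
  have he' : (bel M W).asIdeal.ramificationIdx' W.asIdeal = W.asIdeal.ramificationIdx (𝓞 M) :=
    Ideal.ramificationIdx'_eq_ramificationIdx _ _ (bel M W).ne_bot
  rw [← efg (K := M) W, he']
  exact ⟨((bel M W).asIdeal.primesOver (𝓞 M₁)).ncard * W.asIdeal.inertiaDeg (𝓞 M), by ring⟩

theorem l_eun (h1 : L_SQR) : L_EUN := by
  intro p hp n K M L M' _ _ _ _ _ _ _ _ _ _ _ _ _ _ _ hS W w V v hWw hWV hwv hVv hfree hun x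
  obtain ⟨hd1, hd2, hg1, hg2, -⟩ := h1 p n K M L M' hS
  have hgM := hS.galM
  obtain rfl := bel_of_above hWw
  obtain rfl := bel_of_above hWV
  -- the uniformizer of `v`
  obtain ⟨π, hπ⟩ := v.valuation_exists_uniformizer K
  have hπ1 : ordv v π = 1 := by
    unfold ordv
    rw [hπ, WithZero.log_exp]
    norm_num
  have e1 : ordv W (algebraMap K M' π) =
      ((bel M W).asIdeal.ramificationIdx' W.asIdeal : ℤ) := by
    rw [IsScalarTower.algebraMap_apply K M M', ordW W, ordW (bel M W),
      Pool.Agent.Helper13.RD.ram_free (bel M W) hfree, bel_of_above hwv, hπ1]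
    simp
  have e2 : ordv W (algebraMap K M' π) =
      ((bel L W).asIdeal.ramificationIdx' W.asIdeal : ℤ) := by
    rw [IsScalarTower.algebraMap_apply K L M', ordW W, hun π, hπ1, mul_one]
  have e3 : (bel M W).asIdeal.ramificationIdx' W.asIdeal =
      (bel L W).asIdeal.ramificationIdx' W.asIdeal := by
    exact_mod_cast e1.symm.trans e2
  have hcop : (p ^ n).Coprime (finrank K M) := (hS.cop.symm).pow_left n
  have h3 : (bel M W).asIdeal.ramificationIdx' W.asIdeal = 1 := by
    refine Nat.eq_one_of_dvd_coprimes hcop ?_ ?_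
    · rw [← hd1]
      exact ram_dvd W
    · rw [← hd2, e3]
      exact ram_dvd W
  rw [ordW W, h3]
  simp

end Pool.Agent.Helper74.RL
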